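import Mathlib
import Pool.Agent.Y94.LL.Ker

/-!
# The binomial kernel integrated over an arc
-/

set_option autoImplicit false

namespace Pool.Agent.Helper42.UG

open Complex Finset MeasureTheory
open Pool.Agent.Y94.LL

/-- `e^{-iφ}` -/
noncomputable def em (φ : ℝ) : ℂ := Complex.exp ((-I) * (φ : ℂ))

theorem norm_em (φ : ℝ) : ‖em φ‖ = 1 := by
  unfold em
  rw [Complex.norm_exp]
  simp

theorem continuous_em : Continuous em := by
  unfold em
  fun_prop

theorem em_pow (m : ℕ) (φ : ℝ) : em φ ^ m = Complex.exp ((-(m : ℂ) * I) * (φ : ℂ)) := by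
  unfold em
  rw [← Complex.exp_nat_mul]
  congr 1
  ring

/-- the integral of `e^{-imφ}` -/
noncomputable def EE (a b : ℝ) (m : ℕ) : ℂ := ∫ φ in a..b, em φ ^ m

theorem coef_ne {m : ℕ} (hm : 1 ≤ m) : (-(m : ℂ) * I) ≠ 0 := by
  have : (m : ℂ) ≠ 0 := by
    have : m ≠ 0 := by omega
    exact_mod_cast this
  simpa using this

theorem EE_eq {m : ℕ} (hm : 1 ≤ m) (a b : ℝ) :
    EE a b m = (em b ^ m - em a ^ m) / (-(m : ℂ) * I) := by
  unfold EE
  simp_rw [em_pow]
  exact integral_exp_mul_complex (coef_ne hm)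

theorem norm_EE_le {m : ℕ} (hm : 1 ≤ m) (a b : ℝ) : ‖EE a b m‖ ≤ 2 / (m : ℝ) := by
  rw [EE_eq hm, norm_div]
  have h1 : ‖(-(m : ℂ) * I)‖ = (m : ℝ) := by simp
  rw [h1]
  apply div_le_div_of_nonneg_right _ (Nat.cast_nonneg m)
  refine (norm_sub_le _ _).trans ?_
  rw [norm_pow, norm_pow, norm_em, norm_em, one_pow]
  norm_num

theorem em_add_two_pi (a : ℝ) : em (a + 2 * Real.pi) = em a := by
  unfold em
  have e : (-I) * ((a + 2 * Real.pi : ℝ) : ℂ) = (-I) * (a : ℂ) - (2 * Real.pi : ℂ) * I := by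
    push_cast; ring
  rw [e, Complex.exp_periodic.sub_eq]

theorem EE_period {m : ℕ} (hm : 1 ≤ m) (a : ℝ) : EE a (a + 2 * Real.pi) m = 0 := by
  rw [EE_eq hm, em_add_two_pi, sub_self, zero_div]

theorem continuous_TT (n : ℕ) (u : ℂ) : Continuous (fun φ : ℝ => TT n (u * em φ)) := by
  unfold TT
  have h := continuous_em
  fun_prop

theorem int_TT (n : ℕ) (u : ℂ) (a b : ℝ) :
    ∫ φ in a..b, TT n (u * em φ) =
      (b - a) + 2 * ∑ k ∈ range n, bb n (k + 1) * (u ^ (k + 1) * EE a b (k + 1)).re := by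
  have hc : ∀ k : ℕ, Continuous (fun φ : ℝ => (u * em φ) ^ (k + 1)) := by
    intro k
    have h := continuous_em
    fun_prop
  have hre : ∀ k : ℕ, ∫ φ in a..b, ((u * em φ) ^ (k + 1)).re =
      (u ^ (k + 1) * EE a b (k + 1)).re := by
    intro k
    have h1 := Complex.reCLM.intervalIntegral_comp_comm
      ((hc k).intervalIntegrable (μ := volume) a b)
    simp only [Complex.reCLM_apply] at h1
    rw [h1]
    congr 1
    unfold EE
    rw [← intervalIntegral.integral_const_mul]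
    congr 1
    ext φ
    rw [mul_pow]
  unfold TT
  rw [intervalIntegral.integral_add (by simp)]
  · rw [intervalIntegral.integral_const_mul, intervalIntegral.integral_finsetSum]
    · simp only [intervalIntegral.integral_const, smul_eq_mul, mul_one]
      congr 2
      apply sum_congr rfl
      intro k _
      rw [intervalIntegral.integral_const_mul, hre]
    · intro k _
      apply Continuous.intervalIntegrable
      have h := hc k
      exact continuous_const.mul (Complex.continuous_re.comp h)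
  · apply Continuous.intervalIntegrable
    apply continuous_const.mul
    apply continuous_finsetSum
    intro k _
    exact continuous_const.mul (Complex.continuous_re.comp (hc k))

/-- the sum of the coefficients -/
theorem sum_bb_sqrt {n : ℕ} (hn : 1 ≤ n) : ∑ k ∈ range n, bb n (k + 1) ≤ Real.sqrt n := by
  have h1 := TT_circle n (w := 1) (by simp)
  unfold TT at h1
  simp only [one_pow, Complex.one_re, mul_one] at h1
  have h2 : ‖(1 : ℂ) + 1‖ ^ (2 * n) = 4 ^ n := by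
    have : ‖(1 : ℂ) + 1‖ = 2 := by norm_num
    rw [this, pow_mul]
    norm_num
  rw [h2] at h1
  have h3 := four_pow_div_le n hn
  linarith

/-- comparison of the integral at `r w` and at `w` -/
theorem int_radial {n : ℕ} (hn : 1 ≤ n) {w : ℂ} (hw : ‖w‖ = 1) {r : ℝ} (h0 : 0 ≤ r) (h1 : r ≤ 1)
    (a b : ℝ) :
    ∫ φ in a..b, TT n (w * em φ) ≤
      (∫ φ in a..b, TT n (((r : ℂ) * w) * em φ)) + 4 * Real.sqrt n * (1 - r) := by
  rw [int_TT, int_TT]
  have hterm : ∀ k ∈ range n, bb n (k + 1) * (w ^ (k + 1) * EE a b (k + 1)).re ≤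
      bb n (k + 1) * (((r : ℂ) * w) ^ (k + 1) * EE a b (k + 1)).re +
        2 * (1 - r) * bb n (k + 1) := by
    intro k _
    have hb := bb_nonneg n (k + 1)
    have e : (((r : ℂ) * w) ^ (k + 1) * EE a b (k + 1)).re =
        r ^ (k + 1) * (w ^ (k + 1) * EE a b (k + 1)).re := by
      rw [mul_pow, mul_assoc, ← Complex.ofReal_pow, Complex.re_ofReal_mul]
    rw [e]
    have h3 : 1 - r ^ (k + 1) ≤ ((k : ℝ) + 1) * (1 - r) := by
      have h4 := one_add_mul_sub_le_pow (a := r) (by linarith) (k + 1)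
      push_cast at h4
      linarith
    have h5 : r ^ (k + 1) ≤ 1 := pow_le_one₀ h0 h1
    have h6 : (w ^ (k + 1) * EE a b (k + 1)).re ≤ 2 / ((k : ℝ) + 1) := by
      refine (Complex.re_le_norm _).trans ?_
      rw [norm_mul, norm_pow, hw, one_pow, one_mul]
      have := norm_EE_le (m := k + 1) (by omega) a b
      push_cast at this
      exact this
    have hk : (0 : ℝ) < (k : ℝ) + 1 := by positivity
    have h7 : (1 - r ^ (k + 1)) * (w ^ (k + 1) * EE a b (k + 1)).re ≤ 2 * (1 - r) := by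
      calc (1 - r ^ (k + 1)) * (w ^ (k + 1) * EE a b (k + 1)).re ≤
          (1 - r ^ (k + 1)) * (2 / ((k : ℝ) + 1)) :=
            mul_le_mul_of_nonneg_left h6 (by linarith)
        _ ≤ (((k : ℝ) + 1) * (1 - r)) * (2 / ((k : ℝ) + 1)) :=
            mul_le_mul_of_nonneg_right h3 (by positivity)
        _ = 2 * (1 - r) := by field_simp
    have h8 := mul_le_mul_of_nonneg_left h7 hb
    linarith
  have hs := sum_le_sum hterm
  rw [sum_add_distrib, ← mul_sum] at hs
  have h3 := mul_le_mul_of_nonneg_left (sum_bb_sqrt hn) (by linarith : (0 : ℝ) ≤ 2 * (1 - r))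
  linarith

theorem TT_nonneg (n : ℕ) {w : ℂ} (hw : ‖w‖ = 1) : 0 ≤ TT n w := by
  rw [TT_circle n hw]
  have := cpos n
  positivity

theorem cos_le_cos_of_far {x δ : ℝ} (h0 : 0 ≤ δ) (h1 : δ ≤ x) (h2 : x ≤ 2 * Real.pi - δ) :
    Real.cos x ≤ Real.cos δ := by
  have hπ := Real.pi_pos
  rcases le_total x Real.pi with h | h
  · exact Real.cos_le_cos_of_nonneg_of_le_pi h0 h h1
  · have e : Real.cos x = Real.cos (2 * Real.pi - x) := by
      rw [Real.cos_two_pi_sub]
    rw [e]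
    exact Real.cos_le_cos_of_nonneg_of_le_pi h0 (by linarith) (by linarith)

/-- the kernel away from `1` -/
theorem TT_far {n : ℕ} (hn : 1 ≤ n) {x δ : ℝ} (h0 : 0 ≤ δ) (hπ : δ ≤ Real.pi) (h1 : δ ≤ x)
    (h2 : x ≤ 2 * Real.pi - δ) {w : ℂ} (hw : ‖w‖ = 1) (hx : w.re = Real.cos x) :
    TT n w ≤ 2 * Real.sqrt n * Real.exp (-(n * δ ^ 2 / 10)) := by
  rw [TT_circle n hw]
  have hn2 : ‖1 + w‖ ^ 2 = 2 + 2 * w.re := by
    have h3 : w.re ^ 2 + w.im ^ 2 = 1 := by
      have := Complex.sq_norm w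
      rw [hw, Complex.normSq_apply] at this
      linarith
    rw [Complex.sq_norm, Complex.normSq_apply]
    simp only [Complex.add_re, Complex.one_re, Complex.add_im, Complex.one_im]
    nlinarith
  have hcos : Real.cos x ≤ 1 - 2 / Real.pi ^ 2 * δ ^ 2 :=
    (cos_le_cos_of_far h0 h1 h2).trans
      (Real.cos_le_one_sub_mul_cos_sq (by rw [abs_of_nonneg h0]; exact hπ))
  have hpi2 : Real.pi ^ 2 ≤ 10 := by
    have := Real.pi_lt_d4
    have := Real.pi_pos
    nlinarith
  have h4 : 1 / 10 * δ ^ 2 ≤ 1 / Real.pi ^ 2 * δ ^ 2 := by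
    apply mul_le_mul_of_nonneg_right _ (sq_nonneg δ)
    exact one_div_le_one_div_of_le (by positivity) hpi2
  have h5 : ‖1 + w‖ ^ 2 ≤ 4 * Real.exp (-(δ ^ 2 / 10)) := by
    have h6 := Real.add_one_le_exp (-(δ ^ 2 / 10))
    rw [hn2, hx]
    have e : 2 / Real.pi ^ 2 * δ ^ 2 = 2 * (1 / Real.pi ^ 2 * δ ^ 2) := by ring
    rw [e] at hcos
    linarith
  have h6 : (‖1 + w‖ ^ 2) ^ n ≤ 4 ^ n * Real.exp (-(n * δ ^ 2 / 10)) := by
    have h7 := pow_le_pow_left₀ (sq_nonneg ‖1 + w‖) h5 n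
    rw [mul_pow, ← Real.exp_nat_mul] at h7
    have e : (n : ℝ) * -(δ ^ 2 / 10) = -(n * δ ^ 2 / 10) := by ring
    rwa [e] at h7
  rw [pow_mul]
  have hC := cpos n
  calc (‖1 + w‖ ^ 2) ^ n / ((2 * n).choose n : ℝ) ≤
      4 ^ n * Real.exp (-(n * δ ^ 2 / 10)) / ((2 * n).choose n : ℝ) :=
        div_le_div_of_nonneg_right h6 hC.le
    _ = (4 ^ n / ((2 * n).choose n : ℝ)) * Real.exp (-(n * δ ^ 2 / 10)) := by ring
    _ ≤ 2 * Real.sqrt n * Real.exp (-(n * δ ^ 2 / 10)) :=
        mul_le_mul_of_nonneg_right (four_pow_div_le n hn) (Real.exp_pos _).le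

theorem norm_exp_mul_em (θ φ : ℝ) : ‖Complex.exp (θ * I) * em φ‖ = 1 := by
  rw [norm_mul, norm_em, Complex.norm_exp_ofReal_mul_I, one_mul]

theorem re_exp_mul_em (θ φ : ℝ) : (Complex.exp (θ * I) * em φ).re = Real.cos (φ - θ) := by
  unfold em
  rw [← Complex.exp_add]
  have e : (θ : ℂ) * I + (-I) * (φ : ℂ) = ((θ - φ : ℝ) : ℂ) * I := by push_cast; ring
  rw [e, Complex.exp_ofReal_mul_I_re, ← Real.cos_neg]
  congr 1
  ring

/-- the integral over an arc around the point -/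
theorem int_arc {n : ℕ} (hn : 1 ≤ n) {α β θ δ : ℝ} (hθ1 : α ≤ θ) (hθ2 : θ ≤ β) (hδ : 0 ≤ δ)
    (hab : β - α + 2 * δ ≤ 2 * Real.pi) :
    2 * Real.pi * (1 - 2 * Real.sqrt n * Real.exp (-(n * δ ^ 2 / 10))) ≤
      ∫ φ in (α - δ)..(β + δ), TT n (Complex.exp (θ * I) * em φ) := by
  have hπ := Real.pi_pos
  set f : ℝ → ℝ := fun φ => TT n (Complex.exp (θ * I) * em φ) with hf
  have hcont : Continuous f := continuous_TT n _
  have hint : ∀ a b : ℝ, IntervalIntegrable f volume a b := fun a b =>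
    hcont.intervalIntegrable a b
  have hfull : ∫ φ in (α - δ)..(α - δ + 2 * Real.pi), f φ = 2 * Real.pi := by
    rw [hf, int_TT]
    have : ∑ k ∈ range n, bb n (k + 1) *
        (Complex.exp (θ * I) ^ (k + 1) * EE (α - δ) (α - δ + 2 * Real.pi) (k + 1)).re = 0 := by
      apply sum_eq_zero
      intro k _
      rw [EE_period (by omega)]
      simp
    rw [this]
    ring
  have hsplit : (∫ φ in (α - δ)..(β + δ), f φ) + ∫ φ in (β + δ)..(α - δ + 2 * Real.pi), f φ =
      ∫ φ in (α - δ)..(α - δ + 2 * Real.pi), f φ :=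
    intervalIntegral.integral_add_adjacent_intervals (hint _ _) (hint _ _)
  set τ : ℝ := 2 * Real.sqrt n * Real.exp (-(n * δ ^ 2 / 10)) with hτ
  have hτ0 : 0 ≤ τ := by positivity
  have hrest : ∫ φ in (β + δ)..(α - δ + 2 * Real.pi), f φ ≤
      ∫ φ in (β + δ)..(α - δ + 2 * Real.pi), τ := by
    apply intervalIntegral.integral_mono_on (by linarith) (hint _ _) (by simp)
    intro φ hφ
    rw [Set.mem_Icc] at hφ
    exact TT_far hn hδ (by linarith) (x := φ - θ) (by linarith) (by linarith)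
      (norm_exp_mul_em θ φ) (re_exp_mul_em θ φ)
  rw [intervalIntegral.integral_const, smul_eq_mul] at hrest
  have h3 : (α - δ + 2 * Real.pi - (β + δ)) * τ ≤ 2 * Real.pi * τ :=
    mul_le_mul_of_nonneg_right (by linarith) hτ0
  have h4 : ∫ φ in (α - δ)..(β + δ), f φ = 2 * Real.pi -
      ∫ φ in (β + δ)..(α - δ + 2 * Real.pi), f φ := by linarith
  rw [h4]
  linarith

theorem int_TT_nonneg (n : ℕ) {w : ℂ} (hw : ‖w‖ = 1) {a b : ℝ} (hab : a ≤ b) :
    0 ≤ ∫ φ in a..b, TT n (w * em φ) := by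
  apply intervalIntegral.integral_nonneg hab
  intro φ _
  apply TT_nonneg
  rw [norm_mul, norm_em, hw, one_mul]

end Pool.Agent.Helper42.UG
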