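import Mathlib
import Pool.Agent.Helper42.UG.Disc
import Pool.Agent.Y94.LL.Fin
import Pool.Agent.R976.UG.Const
import Pool.Agent.R976.UG.Gap
import Pool.Agent.R701.UG.Eqv

/-!
# The growth gap and Lehmer's problem for algebraic units with equidistributed conjugates
-/

set_option autoImplicit false

open Filter Topology Polynomial Finset
open scoped Pointwise commutatorElement TensorProduct ComplexConjugate

namespace Pool.Agent.Helper42.UG

open Pool.Agent Pool.Agent.W963.GE Pool.Agent.TH53.UG Pool.Agent.R976.UG Pool.Agent.R701.UG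
open Pool.Agent.W401.SSS (Adm)
open Pool.Agent.Y94.LL (SS HH SS_card mem_SS HH_nonneg sum_abs_log log_MM dob_poly)

universe u

/-- `w` lies in the part `α ≤ arg w ≤ β`, `|log |w|| ≤ η` of an annulus -/
def InAnn (α β η : ℝ) (w : ℂ) : Prop :=
  |Real.log ‖w‖| ≤ η ∧ ∃ θ : ℝ, α ≤ θ ∧ θ ≤ β ∧ w = (‖w‖ : ℂ) * Complex.exp (θ * Complex.I)

/-- the number of the conjugates of `z` in this set -/
noncomputable def count (z : ℂ) (α β η : ℝ) : ℕ :=
  {w : ℂ | aeval w (minpoly ℚ z) = 0 ∧ InAnn α β η w}.ncard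

/-- the conjugates of `z` are not equidistributed -/
def Irregular (z : ℂ) : Prop :=
  ∃ α β η : ℝ, α ≤ β ∧ β ≤ α + 2 * Real.pi ∧ 1 / √((minpoly ℚ z).natDegree : ℝ) ≤ η ∧
    7 * √((minpoly ℚ z).natDegree : ℝ) * Real.log (2 * (minpoly ℚ z).natDegree) ≤
      |count z α β η - (minpoly ℚ z).natDegree * (β - α) / (2 * Real.pi)|

/-- every nonzero number is in one of two complementary sectors -/
theorem sector_cases {α β : ℝ} (h1 : α ≤ β) (h2 : β ≤ α + 2 * Real.pi) {z : ℂ} (hz : z ≠ 0) :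
    InSector α β z ∨ InSector β (α + 2 * Real.pi) z := by
  have hπ := Real.pi_pos
  obtain ⟨θ₀, hθ₀⟩ := exists_unit hz
  set k : ℤ := ⌊(θ₀ - α) / (2 * Real.pi)⌋ with hk
  set θ : ℝ := θ₀ - k * (2 * Real.pi) with hθ
  have h3 : α ≤ θ := by
    have := Int.floor_le ((θ₀ - α) / (2 * Real.pi))
    rw [le_div_iff₀ (by positivity)] at this
    rw [hθ]
    linarith
  have h4 : θ ≤ α + 2 * Real.pi := by
    have := (Int.lt_floor_add_one ((θ₀ - α) / (2 * Real.pi))).le
    rw [div_le_iff₀ (by positivity)] at this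
    rw [hθ]
    linarith
  have h5 : z = (‖z‖ : ℂ) * Complex.exp (θ * Complex.I) := by
    have e : (θ : ℂ) * Complex.I = (θ₀ : ℂ) * Complex.I - (k : ℂ) * (2 * Real.pi * Complex.I) := by
      rw [hθ]
      push_cast
      ring
    rw [e, Complex.exp_periodic.sub_int_mul_eq]
    exact hθ₀
  rcases le_total θ β with h | h
  · exact Or.inl ⟨θ, h3, h, h5⟩
  · exact Or.inr ⟨θ, h, h4, h5⟩

theorem cnt_add {P : ℤ[X]} (hP : Adm P) (h0 : ∀ z : ℂ, aeval z P = 0 → z ≠ 0) {α β : ℝ}
    (h1 : α ≤ β) (h2 : β ≤ α + 2 * Real.pi) :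
    (P.natDegree : ℝ) ≤ cnt P α β + cnt P β (α + 2 * Real.pi) := by
  classical
  unfold cnt
  rw [← SS_card hP]
  have h3 : (SS P) ⊆ (SS P).filter (InSector α β) ∪ (SS P).filter (InSector β (α + 2 * Real.pi)) := by
    intro z hz
    rw [mem_union, mem_filter, mem_filter]
    rcases sector_cases h1 h2 (h0 z ((mem_SS hP z).1 hz)) with h | h
    · exact Or.inl ⟨hz, h⟩
    · exact Or.inr ⟨hz, h⟩
  have h4 := (card_le_card h3).trans (card_union_le _ _)
  exact_mod_cast h4

theorem cnt_lower {P : ℤ[X]} (hP : Adm P) (h0 : ∀ z : ℂ, aeval z P = 0 → z ≠ 0)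
    {α β : ℝ} (h1 : α ≤ β) (h2 : β ≤ α + 2 * Real.pi) :
    P.natDegree * (β - α) / (2 * Real.pi) ≤ (cnt P α β : ℝ) +
      6 * (Real.sqrt P.natDegree * Real.log (2 * P.natDegree)) +
        3 * (Real.sqrt P.natDegree * HH P) := by
  have h3 := cnt_add hP h0 h1 h2
  have h4 := cnt_upper hP h0 h2
  have hπ := Real.pi_pos
  have e : (P.natDegree : ℝ) * (α + 2 * Real.pi - β) / (2 * Real.pi) =
      P.natDegree - P.natDegree * (β - α) / (2 * Real.pi) := by
    field_simp
    ring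
  rw [e] at h4
  linarith

open Classical in
/-- the count in the annulus -/
noncomputable def cntA (P : ℤ[X]) (α β η : ℝ) : ℕ := ((SS P).filter (InAnn α β η)).card

theorem cntA_le (P : ℤ[X]) (α β η : ℝ) : cntA P α β η ≤ cnt P α β := by
  classical
  unfold cntA cnt
  apply card_le_card
  intro z hz
  rw [mem_filter] at hz ⊢
  exact ⟨hz.1, hz.2.2⟩

theorem cnt_le_cntA {P : ℤ[X]} (hP : Adm P) (h0 : ∀ z : ℂ, aeval z P = 0 → z ≠ 0) (α β : ℝ)
    {η : ℝ} (hη : 0 < η) : (cnt P α β : ℝ) ≤ cntA P α β η + 2 * HH P / η := by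
  classical
  set B := (SS P).filter (fun z => η < |Real.log ‖z‖|) with hB
  have h1 : cnt P α β ≤ cntA P α β η + B.card := by
    unfold cnt cntA
    refine (card_le_card ?_).trans (card_union_le _ _)
    intro z hz
    rw [mem_filter] at hz
    rw [mem_union, mem_filter, hB, mem_filter]
    by_cases h : η < |Real.log ‖z‖|
    · exact Or.inr ⟨hz.1, h⟩
    · exact Or.inl ⟨hz.1, not_lt.1 h, hz.2⟩
  have h2 : (B.card : ℝ) * η ≤ 2 * HH P := by
    calc (B.card : ℝ) * η = ∑ _z ∈ B, η := by rw [sum_const, nsmul_eq_mul]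
      _ ≤ ∑ z ∈ B, |Real.log ‖z‖| := by
          apply sum_le_sum
          intro z hz
          rw [hB, mem_filter] at hz
          exact hz.2.le
      _ ≤ ∑ z ∈ SS P, |Real.log ‖z‖| := by
          apply sum_le_sum_of_subset_of_nonneg (filter_subset _ _)
          intro z _ _
          exact abs_nonneg _
      _ ≤ 2 * HH P := sum_abs_log hP h0
  have h3 : (B.card : ℝ) ≤ 2 * HH P / η := by rwa [le_div_iff₀ hη]
  have h4 : (cnt P α β : ℝ) ≤ cntA P α β η + B.card := by exact_mod_cast h1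
  linarith

/-- the discrepancy in the annulus -/
theorem cntA_abs {P : ℤ[X]} (hP : Adm P) (h0 : ∀ z : ℂ, aeval z P = 0 → z ≠ 0)
    {α β η : ℝ} (h1 : α ≤ β) (h2 : β ≤ α + 2 * Real.pi)
    (hη : 1 / Real.sqrt P.natDegree ≤ η) :
    |(cntA P α β η : ℝ) - P.natDegree * (β - α) / (2 * Real.pi)| ≤
      6 * (Real.sqrt P.natDegree * Real.log (2 * P.natDegree)) +
        5 * (Real.sqrt P.natDegree * HH P) := by
  have hd1 : (1 : ℝ) ≤ P.natDegree := hP.one_le_deg
  have hs0 : 0 < Real.sqrt P.natDegree := Real.sqrt_pos.2 (by linarith)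
  have hη0 : 0 < η := lt_of_lt_of_le (by positivity) hη
  have hH0 := HH_nonneg hP
  have h3 := cnt_upper hP h0 h1
  have h4 := cnt_lower hP h0 h1 h2
  have h5 := cnt_le_cntA hP h0 α β hη0
  have h6 : (cntA P α β η : ℝ) ≤ cnt P α β := by exact_mod_cast cntA_le P α β η
  have h7 : 2 * HH P / η ≤ 2 * (Real.sqrt P.natDegree * HH P) := by
    rw [div_le_iff₀ hη0]
    rw [div_le_iff₀ hs0] at hη
    have h8 := mul_le_mul_of_nonneg_left hη (by linarith : 0 ≤ 2 * HH P)
    linarith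
  have h8 : 0 ≤ Real.sqrt P.natDegree * HH P := by positivity
  rw [abs_le]
  constructor <;> linarith

theorem adm_minpoly {x : ℂ} (hx : IsIntegral ℤ x) : Adm (minpoly ℤ x) :=
  ⟨minpoly.irreducible hx, minpoly.natDegree_pos hx, by
    rw [(minpoly.monic hx).leadingCoeff]; norm_num⟩

theorem HH_minpoly {x : ℂ} (hx : IsIntegral ℤ x) : HH (minpoly ℤ x) = Real.log (MM x) :=
  (log_MM (adm_minpoly hx)).symm

theorem conj_ne_zero {x : ℂ} (hx : IsIntegral ℤ x) (h0 : x ≠ 0) (z : ℂ)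
    (hz : aeval z (minpoly ℤ x) = 0) : z ≠ 0 := by
  rintro rfl
  have h1 := int_conj hx 0 ((mem_conjs hx).2 (by simpa using hz))
  exact h0 (by simpa using h1)

theorem count_eq {x : ℂ} (hx : IsIntegral ℤ x) (α β η : ℝ) :
    count x α β η = cntA (minpoly ℤ x) α β η := by
  classical
  unfold count cntA
  rw [← Set.ncard_coe_finset]
  congr 1
  ext w
  rw [Finset.mem_coe, mem_filter, mem_SS (adm_minpoly hx), Set.mem_ofPred_eq, aeval_eq hx]

theorem irr_bound {x : ℂ} (hx : IsIntegral ℤ x) (h0 : x ≠ 0) (h : Irregular x) :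
    1 / 8 ≤ Real.log (MM x) := by
  obtain ⟨α, β, η, h1, h2, h3, h4⟩ := h
  rw [natDegree_eq hx] at h3 h4
  rw [count_eq hx] at h4
  have hP := adm_minpoly hx
  have hd1 : (1 : ℝ) ≤ (minpoly ℤ x).natDegree := hP.one_le_deg
  have h5 := h4.trans (cntA_abs hP (conj_ne_zero hx h0) h1 h2 h3)
  rw [HH_minpoly hx] at h5
  set s := √((minpoly ℤ x).natDegree : ℝ) with hs
  have hs0 : 0 < s := Real.sqrt_pos.2 (by linarith)
  set L := Real.log (2 * ((minpoly ℤ x).natDegree : ℝ)) with hL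
  have hl2 : (0.6931471803 : ℝ) < Real.log 2 := Real.log_two_gt_d9
  have hL0 : (0.693 : ℝ) ≤ L := by
    have : Real.log 2 ≤ L := Real.log_le_log (by norm_num) (by linarith)
    linarith
  have h6 : s * L ≤ s * (5 * Real.log (MM x)) := by linarith
  have h7 := le_of_mul_le_mul_left h6 hs0
  linarith

/-- The critical units: of degree greater than `D`, reciprocal over all totally real and CM fields,
with equidistributed conjugates. -/
def Critical (D : ℕ) (x : ℂ) : Prop :=
  UnitNR x ∧ D < (minpoly ℚ x).natDegree ∧ ¬ NotRecip x ∧ ¬ Irregular x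

theorem log_mm : ∃ c : ℝ, 0 < c ∧ c / Real.log 2 ^ 3 ≤ 1 / 180 ∧ ∀ D : ℕ, 1 ≤ D → ∀ x : ℂ, UnitNR x →
    ¬ Critical D x → c / Real.log (2 * D) ^ 3 ≤ Real.log (MM x) := by
  obtain ⟨c, hc, hdob⟩ := dob_poly
  have hl2 : (0.6931471803 : ℝ) < Real.log 2 := Real.log_two_gt_d9
  have hl20 : 0 < Real.log 2 ^ 3 := by positivity
  refine ⟨min c (Real.log 2 ^ 3 / 180), lt_min hc (by positivity), ?_, ?_⟩
  · rw [div_le_iff₀ hl20]
    refine (min_le_right _ _).trans (le_of_eq ?_)
    ring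
  intro D hD x hx hnc
  have hD1 : (1 : ℝ) ≤ D := by exact_mod_cast hD
  have hLD : Real.log 2 ≤ Real.log (2 * D) := Real.log_le_log (by norm_num) (by linarith)
  have hLD3 : Real.log 2 ^ 3 ≤ Real.log (2 * D) ^ 3 := pow_le_pow_left₀ (by linarith) hLD 3
  have hLD0 : 0 < Real.log (2 * D) ^ 3 := hl20.trans_le hLD3
  have hsmall : min c (Real.log 2 ^ 3 / 180) / Real.log (2 * D) ^ 3 ≤ 1 / 180 := by
    rw [div_le_iff₀ hLD0]
    refine (min_le_right _ _).trans ?_
    linarith
  obtain ⟨h0, hxi, hi, hroot⟩ := hx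
  by_cases hdeg : D < (minpoly ℚ x).natDegree
  · by_cases hr : NotRecip x
    · have h1 := one_le_of_notRecip hxi h0 hi hr
      have hM : 0 < MM x := zero_lt_one.trans_le (MM_ge x hxi)
      have h2 : 0 < MM x ^ 2 := by positivity
      have h3 : (8 / 5 : ℝ) ≤ MM x ^ 2 := by
        by_contra hcon
        push Not at hcon
        have h4 : 5 / 8 < 1 / MM x ^ 2 := by
          rw [lt_div_iff₀ h2]
          linarith
        linarith
      have h4 : (1.2 : ℝ) ≤ MM x := by nlinarith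
      have h5 : Real.log (1.2 : ℝ) ≤ Real.log (MM x) := Real.log_le_log (by norm_num) h4
      have h6 : (1 : ℝ) / 180 ≤ Real.log (1.2 : ℝ) := by
        have := Real.one_sub_inv_le_log_of_pos (show (0 : ℝ) < 1.2 by norm_num)
        have h7 : (1 : ℝ) / 180 ≤ 1 - (1.2)⁻¹ := by norm_num
        linarith
      linarith
    · by_cases hirr : Irregular x
      · have := irr_bound hxi h0 hirr
        linarith
      · exact absurd ⟨⟨h0, hxi, hi, hroot⟩, hdeg, hr, hirr⟩ hnc
  · have hdeg' := not_lt.1 hdeg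
    rw [natDegree_eq hxi] at hdeg'
    have hP := adm_minpoly hxi
    have h1 := hdob _ hP (minpoly.monic hxi).leadingCoeff (fun z hz => by
      have h2 : z ∈ conjs x := (mem_conjs hxi).2 hz
      refine ⟨conj_ne_zero hxi h0 z hz, fun m hm h3 => hroot m hm ?_⟩
      have h4 : minpoly ℤ x = minpoly ℤ z := by
        have hzi : IsIntegral ℤ z := ⟨minpoly ℤ x, minpoly.monic hxi, hz⟩
        have h5 : minpoly ℤ z ∣ minpoly ℤ x := minpoly.isIntegrallyClosed_dvd hzi hz
        have h6 : Associated (minpoly ℤ z) (minpoly ℤ x) :=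
          associated_of_dvd_dvd h5
            (((minpoly.irreducible hxi).dvd_iff.1 h5).resolve_left (minpoly.not_isUnit ℤ z)).symm.dvd'
        exact (eq_of_monic_of_associated (minpoly.monic hzi) (minpoly.monic hxi) h6).symm
      have h5 : minpoly ℤ z ∣ X ^ m - 1 := by
        have hzi : IsIntegral ℤ z := ⟨minpoly ℤ x, minpoly.monic hxi, hz⟩
        apply minpoly.isIntegrallyClosed_dvd hzi
        rw [map_sub, map_pow, aeval_X, map_one, h3, sub_self]
      rw [← h4] at h5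
      obtain ⟨g, hg⟩ := h5
      have h6 : aeval x (X ^ m - 1 : ℤ[X]) = 0 := by rw [hg, map_mul, minpoly.aeval, zero_mul]
      rwa [map_sub, map_pow, aeval_X, map_one, sub_eq_zero] at h6)
    rw [HH_minpoly hxi] at h1
    have hd1 : (1 : ℝ) ≤ (minpoly ℤ x).natDegree := hP.one_le_deg
    have h2 : Real.log (2 * ((minpoly ℤ x).natDegree : ℝ)) ^ 3 ≤ Real.log (2 * D) ^ 3 := by
      apply pow_le_pow_left₀ (Real.log_nonneg (by linarith))
      apply Real.log_le_log (by linarith)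
      have : ((minpoly ℤ x).natDegree : ℝ) ≤ D := by exact_mod_cast hdeg'
      linarith
    have h3 : 0 < Real.log (2 * ((minpoly ℤ x).natDegree : ℝ)) ^ 3 :=
      pow_pos (Real.log_pos (by linarith)) 3
    calc min c (Real.log 2 ^ 3 / 180) / Real.log (2 * D) ^ 3 ≤ c / Real.log (2 * D) ^ 3 :=
          div_le_div_of_nonneg_right (min_le_left _ _) hLD0.le
      _ ≤ c / Real.log (2 * ((minpoly ℤ x).natDegree : ℝ)) ^ 3 :=
          div_le_div_of_nonneg_left hc.le h3 h2
      _ ≤ _ := h1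

/-- **the gap** -/
theorem gap_critical {k d : ℕ} (hk : 1 ≤ k) {δ : ℝ} (he : 0 < δ) (he2 : δ ≤ 1 / 180)
    {G : Type u} [Group G]
    (S : Set G) (hfin : S.Finite) (hgen : Subgroup.closure S = ⊤) (H : Subgroup G)
    (hH0 : H.index ≠ 0) (hHd : H.index ≤ d)
    (hnil : Group.IsNilpotent (gam H k) ∨ ¬ Group.IsVirtuallyNilpotent (H ⧸ ⁅gam H k, gam H k⁆))
    (hgood : ∀ (t : H) (z : ℂ), Module.End.HasEigenvalue
      (LinearMap.baseChange ℂ (act (gam H k) t) :
        Module.End ℂ (ℂ ⊗[ℤ] (Additive (Abelianization (gam H k))))) z → UnitNR z →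
        δ ≤ Real.log (MM z)) :
    Group.IsVirtuallyNilpotent G ∨
      δ / (2 ^ (k + 2) * (2 * d - 1)) ≤ H746UG.rho S := by
  have e : δ / (2 ^ (k + 2) * (2 * d - 1)) =
      (δ / 2) / (2 ^ (k + 1) * (2 * d - 1)) := by
    rw [div_div]
    congr 1
    ring
  rw [e]
  refine gap_general hk S hfin hgen H hH0 hHd hnil ?_ ?_
  · have := Real.log_two_gt_d9
    linarith
  · intro hMf t b x hx0 hx hp
    have hxi : IsIntegral ℤ x := integral_of_root _ b hp
    by_cases hi : IsIntegral ℤ x⁻¹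
    · exact eta_boundC hx0 hxi hx he he2
        (hgood t x (eig_of_root (act (gam H k) t) b hp (minpoly.aeval ℤ x)) ⟨hx0, hxi, hi, hx⟩)
    · rw [H746UG.eta_eq_log_two x hx0 (fun h => hi h.2)]
      have := Real.log_two_gt_d9
      linarith

/-- Lehmer's problem for the critical units -/
def LehmCrit (D : ℕ) : Prop := ∃ ε > 0, ∀ x : ℂ, Critical D x → 1 + ε ≤ MM x

theorem lehmCrit_iff {D : ℕ} (hD : 1 ≤ D) : LehmCrit D ↔ Lehm := by
  obtain ⟨c, hc, -, hmm⟩ := log_mm
  constructor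
  · rintro ⟨ε, hε, h⟩
    have hD1 : (1 : ℝ) ≤ D := by exact_mod_cast hD
    have hL0 : 0 < Real.log (2 * D) := Real.log_pos (by linarith)
    set κ : ℝ := c / Real.log (2 * D) ^ 3 with hκ
    have hκ0 : 0 < κ := by positivity
    refine ⟨min ε κ, lt_min hε hκ0, ?_⟩
    intro x hx _
    by_cases hcr : Critical D x
    · have := h x hcr
      have := min_le_left ε κ
      linarith
    · have h1 := hmm D hD x hx hcr
      have hM : 0 < MM x := zero_lt_one.trans_le (MM_ge x hx.2.1)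
      have h2 := Real.log_le_sub_one_of_pos hM
      have := min_le_right ε κ
      linarith
  · rintro ⟨ε, hε, h⟩
    exact ⟨ε, hε, fun x hx => h x hx.1 hx.2.2.1⟩

end Pool.Agent.Helper42.UG
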