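import Mathlib
import Pool.Agent.Helper42.UG.Crit
import Pool.Agent.H252R3.Leh.Fin

/-!
# The growth gap and Lehmer's problem for units of large order modulo all primes
-/

set_option autoImplicit false

open Filter Topology Polynomial Finset
open scoped Pointwise commutatorElement TensorProduct ComplexConjugate

namespace Pool.Agent.Helper42.UG

open Pool.Agent Pool.Agent.W963.GE Pool.Agent.TH53.UG Pool.Agent.R976.UG Pool.Agent.R701.UG

universe u

/-- many conjugates of `z` have small order modulo some prime -/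
def SmallOrder (lam B : ℝ) (z : ℂ) : Prop :=
  ∃ (p : ℕ) (_ : Fact p.Prime) (N : ℕ) (h : (ZMod p)[X]), 0 < N ∧
    (N : ℝ) ≤ B * (minpoly ℤ z).natDegree ∧
    h ∣ (minpoly ℤ z).map (Int.castRingHom (ZMod p)) ∧ h ∣ X ^ N - 1 ∧
    lam * (minpoly ℤ z).natDegree ≤ h.natDegree * Real.log p

theorem ord_bound {x : ℂ} (hx : UnitNR x) {lam B : ℝ} (hl0 : 0 < lam) (hl1 : lam ≤ 1) (hB : 0 < B)
    (h : SmallOrder lam B x) : (lam / 20) ^ 5 / B ≤ Real.log (MM x) := by
  obtain ⟨h0, hxi, -, hroot⟩ := hx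
  obtain ⟨p, hp, N, g, hN, hNB, h1, h2, h3⟩ := h
  have hM := MM_gt x hxi h0 hroot
  have hM' : 1 < (Pool.Agent.H252R3.Leh.cx (minpoly ℤ x)).mahlerMeasure := hM
  have hmain := Pool.Agent.H252R3.Leh.main_monic p (minpoly ℤ x) (minpoly.monic hxi)
    (minpoly.irreducible hxi) hM' N hN g h1 h2 lam hl0 hl1 h3
  have e : (Pool.Agent.H252R3.Leh.cx (minpoly ℤ x)).mahlerMeasure = MM x := rfl
  rw [e] at hmain
  have hd : (0 : ℝ) < (minpoly ℤ x).natDegree := by
    exact_mod_cast minpoly.natDegree_pos hxi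
  have hlog : 0 < Real.log (MM x) := Real.log_pos hM
  have h4 : (lam / 20) ^ 5 * (minpoly ℤ x).natDegree ≤
      (B * Real.log (MM x)) * (minpoly ℤ x).natDegree := by
    calc (lam / 20) ^ 5 * (minpoly ℤ x).natDegree ≤ N * Real.log (MM x) := hmain
      _ ≤ (B * (minpoly ℤ x).natDegree) * Real.log (MM x) :=
          mul_le_mul_of_nonneg_right hNB hlog.le
      _ = _ := by ring
  have h5 := le_of_mul_le_mul_right h4 hd
  rw [div_le_iff₀ hB]
  linarith

/-- Lehmer's problem for the remaining units -/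
def LehmOrd (lam B : ℝ) : Prop :=
  ∃ ε > 0, ∀ x : ℂ, UnitNR x → ¬ SmallOrder lam B x → 1 + ε ≤ MM x

theorem lehmOrd_iff {lam B : ℝ} (hl0 : 0 < lam) (hl1 : lam ≤ 1) (hB : 0 < B) :
    LehmOrd lam B ↔ Lehm := by
  constructor
  · rintro ⟨ε, hε, h⟩
    set κ : ℝ := (lam / 20) ^ 5 / B with hκ
    have hκ0 : 0 < κ := by positivity
    refine ⟨min ε κ, lt_min hε hκ0, ?_⟩
    intro x hx _
    by_cases hcr : SmallOrder lam B x
    · have h1 := ord_bound hx hl0 hl1 hB hcr
      have hM : 0 < MM x := zero_lt_one.trans_le (MM_ge x hx.2.1)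
      have h2 := Real.log_le_sub_one_of_pos hM
      have := min_le_right ε κ
      linarith
    · have := h x hx hcr
      have := min_le_left ε κ
      linarith
  · rintro ⟨ε, hε, h⟩
    refine ⟨min ε 0.2, lt_min hε (by norm_num), ?_⟩
    intro x hx _
    by_cases hr : NotRecip x
    · obtain ⟨h0, hxi, hi, hroot⟩ := hx
      have h1 := one_le_of_notRecip hxi h0 hi hr
      have hM : 0 < MM x := zero_lt_one.trans_le (MM_ge x hxi)
      have h2 : 0 < MM x ^ 2 := by positivity
      have h3 : (8 / 5 : ℝ) ≤ MM x ^ 2 := by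
        by_contra hcon
        push Not at hcon
        have h4 : 5 / 8 < 1 / MM x ^ 2 := by
          rw [lt_div_iff₀ h2]
          linarith
        linarith
      have h4 : (1.2 : ℝ) ≤ MM x := by nlinarith
      have := min_le_right ε 0.2
      linarith
    · have := h x hx hr
      have := min_le_left ε 0.2
      linarith

end Pool.Agent.Helper42.UG
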