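import Mathlib
import Pool.Agent.Helper42.UG.Ord
import Pool.Agent.H261R2.CM.L2
import Pool.Agent.H338R2.FourF

/-!
# Lehmer's problem for the units satisfying all known necessary conditions
-/

set_option autoImplicit false

open Filter Topology Polynomial Finset
open scoped Pointwise commutatorElement TensorProduct ComplexConjugate

namespace Pool.Agent.Helper42.UG

open Pool.Agent Pool.Agent.W963.GE Pool.Agent.TH53.UG Pool.Agent.R976.UG Pool.Agent.R701.UG

/-- at most four coefficients of the minimal polynomial are not divisible by some prime -/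
def FewTerms (x : ℂ) : Prop :=
  ∃ (p : ℕ) (_ : Fact p.Prime),
    ((minpoly ℤ x).map (Int.castRingHom (ZMod p))).support.card ≤ 4

/-- the value of an integer polynomial at a point of the unit circle -/
noncomputable def val (f : ℤ[X]) (t : ℝ) : ℂ :=
  (f.map (Int.castRingHom ℂ)).eval (Complex.exp (2 * (Real.pi : ℂ) * Complex.I * (t : ℂ)))

/-- the minimal polynomial has a companion of bounded height -/
def SmallPair (K : ℝ) (x : ℂ) : Prop :=
  ∃ g : ℤ[X], g ≠ 0 ∧ IsRelPrime (minpoly ℤ x) g ∧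
    ∫ t in (0 : ℝ)..1, Real.log (max ‖val (minpoly ℤ x) t‖ ‖val g t‖) ≤ K

theorem conj_pow {x : ℂ} (hx : IsIntegral ℤ x) {z : ℂ} (hz : aeval z (minpoly ℤ x) = 0) {n : ℕ}
    (hn : z ^ n = 1) : x ^ n = 1 := by
  have hzi : IsIntegral ℤ z := ⟨minpoly ℤ x, minpoly.monic hx, hz⟩
  have h1 : minpoly ℤ z ∣ minpoly ℤ x := minpoly.isIntegrallyClosed_dvd hzi hz
  have h2 : minpoly ℤ z = minpoly ℤ x :=
    eq_of_monic_of_associated (minpoly.monic hzi) (minpoly.monic hx)
      ((minpoly.irreducible hzi).associated_of_dvd (minpoly.irreducible hx) h1)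
  have h3 : minpoly ℤ z ∣ X ^ n - 1 := minpoly.isIntegrallyClosed_dvd hzi (by simp [hn])
  rw [h2] at h3
  obtain ⟨q, hq⟩ := h3
  have h4 : aeval x (X ^ n - 1 : ℤ[X]) = 0 := by
    rw [hq, map_mul, minpoly.aeval, zero_mul]
  simpa [sub_eq_zero] using h4

theorem few_bound {x : ℂ} (hx : UnitNR x) (h : FewTerms x) : (1.1 : ℝ) ≤ MM x := by
  obtain ⟨h0, hxi, -, hroot⟩ := hx
  obtain ⟨p, hp, hcard⟩ := h
  have hM := MM_gt x hxi h0 hroot
  have hn : 0 < (minpoly ℤ x).natDegree := minpoly.natDegree_pos hxi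
  have h1 := Pool.Agent.H338R2.four_main p (minpoly ℤ x) (by
    intro z hz
    have hz' : aeval z (minpoly ℤ x) = 0 := by
      rw [Polynomial.aeval_def, ← Polynomial.eval_map]
      exact hz
    exact ⟨conj_ne_zero hxi h0 z hz', fun n hn h => hroot n hn (conj_pow hxi hz' h)⟩)
    1 one_ne_zero (Or.inl (by
      rw [← C_1, reverse_C])) (by
    rw [one_mul]
    exact hcard)
  have e : Pool.Agent.H338R2.MZ (minpoly ℤ x) = MM x := rfl
  rw [e, natDegree_one, add_zero, pow_mul] at h1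
  have h2 : (2 : ℝ) ≤ MM x ^ 4 := by
    by_contra hcon
    push Not at hcon
    have h3 := pow_lt_pow_left₀ hcon (by positivity) hn.ne'
    linarith
  by_contra hcon
  push Not at hcon
  have h3 : MM x ^ 4 ≤ 1.1 ^ 4 := pow_le_pow_left₀ (by linarith) hcon.le 4
  norm_num at h3
  linarith

theorem pair_bound (K : ℝ) : ∃ ε > 0, ∀ x : ℂ, UnitNR x → SmallPair K x → 1 + ε ≤ MM x := by
  obtain ⟨c, hc, h⟩ := Pool.Agent.H261R2.CM.gap_one K
  refine ⟨c - 1, by linarith, ?_⟩
  rintro x ⟨h0, hxi, -, hroot⟩ ⟨g, hg, hrel, hK⟩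
  have hM := MM_gt x hxi h0 hroot
  have e : Pool.Agent.H261R2.CM.m1 (minpoly ℤ x) = MM x := rfl
  rcases h (minpoly ℤ x) g (minpoly.monic hxi).ne_zero hg hrel (by
    refine le_trans (le_of_eq ?_) hK
    unfold Pool.Agent.H261R2.CM.mx1
    rfl) with h1 | h1
  · rw [e] at h1
    linarith
  · rw [e] at h1
    linarith

/-- the units satisfying all the necessary conditions -/
def Remaining (D : ℕ) (lam B K : ℝ) (x : ℂ) : Prop :=
  Critical D x ∧ ¬ SmallOrder lam B x ∧ ¬ FewTerms x ∧ ¬ SmallPair K x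

/-- Lehmer's problem for the remaining units -/
def LehmRem (D : ℕ) (lam B K : ℝ) : Prop :=
  ∃ ε > 0, ∀ x : ℂ, Remaining D lam B K x → 1 + ε ≤ MM x

theorem lehmRem_iff {D : ℕ} (hD : 1 ≤ D) {lam B : ℝ} (hl0 : 0 < lam) (hl1 : lam ≤ 1) (hB : 0 < B)
    (K : ℝ) : LehmRem D lam B K ↔ Lehm := by
  constructor
  · rintro ⟨ε, hε, h⟩
    refine (lehmCrit_iff hD).1 ?_
    obtain ⟨ε2, hε2, h2⟩ := pair_bound K
    set κ : ℝ := (lam / 20) ^ 5 / B with hκ
    have hκ0 : 0 < κ := by positivity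
    refine ⟨min (min ε κ) (min ε2 0.1), by positivity, ?_⟩
    intro x hx
    have hM : 0 < MM x := zero_lt_one.trans_le (MM_ge x hx.1.2.1)
    have m1 : min (min ε κ) (min ε2 0.1) ≤ ε := (min_le_left _ _).trans (min_le_left _ _)
    have m2 : min (min ε κ) (min ε2 0.1) ≤ κ := (min_le_left _ _).trans (min_le_right _ _)
    have m3 : min (min ε κ) (min ε2 0.1) ≤ ε2 := (min_le_right _ _).trans (min_le_left _ _)
    have m4 : min (min ε κ) (min ε2 0.1) ≤ 0.1 := (min_le_right _ _).trans (min_le_right _ _)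
    by_cases c1 : SmallOrder lam B x
    · have h1 := ord_bound hx.1 hl0 hl1 hB c1
      have h2 := Real.log_le_sub_one_of_pos hM
      linarith
    by_cases c2 : FewTerms x
    · have := few_bound hx.1 c2
      linarith
    by_cases c3 : SmallPair K x
    · have := h2 x hx.1 c3
      linarith
    have := h x ⟨hx, c1, c2, c3⟩
    linarith
  · intro h0
    obtain ⟨ε, hε, h⟩ := (lehmCrit_iff hD).2 h0
    exact ⟨ε, hε, fun x hx => h x hx.1⟩

end Pool.Agent.Helper42.UG
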